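import Pool.Agent.H41.RC.Few
import Pool.Agent.H92.SR.Fin1

/-!
# Uniform lists below a list: the tail for all thresholds and nearby lists
-/

set_option autoImplicit false

namespace Pool.Agent.H84.AC

open Pool.Agent.H92.SR Pool.Agent.H92.SR.Tr Pool.Agent.H8.SS Pool.Agent.H41.RC

variable {n : ℕ}

open Classical in
/-- the uniform distribution on the lists of positive numbers below `U` -/
noncomputable def unU (U : Fin n → ℕ) (x : Fin n → ℕ) : ℝ :=
  if ∀ i, 1 ≤ x i then ((∏ i, U i : ℕ) : ℝ)⁻¹ else 0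

/-- the lists of positive numbers below `U` -/
def below (U : Fin n → ℕ) : Finset (Fin n → ℕ) := Fintype.piFinset fun i => Finset.Icc 1 (U i)

theorem mem_below {U x : Fin n → ℕ} : x ∈ below U ↔ ∀ i, 1 ≤ x i ∧ x i ≤ U i := by
  unfold below
  rw [Fintype.mem_piFinset]
  exact forall_congr' fun i => Finset.mem_Icc

theorem card_below (U : Fin n → ℕ) : (below U).card = ∏ i, U i := by
  unfold below
  rw [Fintype.card_piFinset]
  simp

theorem unU_nonneg (U x : Fin n → ℕ) : 0 ≤ unU U x := by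
  unfold unU
  split_ifs
  · positivity
  · exact le_rfl

theorem unU_below {U x : Fin n → ℕ} (h : x ∈ below U) : unU U x = ((∏ i, U i : ℕ) : ℝ)⁻¹ :=
  if_pos fun i => (mem_below.1 h i).1

theorem below_sub (U : Fin n → ℕ) : below U ⊆ lists U := fun _ hx =>
  mem_lists.2 fun i => (mem_below.1 hx i).2

theorem unU_sum {U : Fin n → ℕ} (hU : ∀ i, 1 ≤ U i) : ∑ x ∈ lists U, unU U x = 1 := by
  have h : ∑ x ∈ below U, unU U x = ∑ x ∈ lists U, unU U x := by
    refine Finset.sum_subset (below_sub U) fun x hx hx2 => ?_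
    refine if_neg fun h => hx2 (mem_below.2 fun i => ⟨h i, mem_lists.1 hx i⟩)
  rw [← h, Finset.sum_congr rfl fun x hx => unU_below hx, Finset.sum_const, card_below,
    nsmul_eq_mul]
  have : ((∏ i, U i : ℕ) : ℝ) ≠ 0 := by
    exact_mod_cast (Finset.prod_pos fun i _ => (hU i : 0 < U i)).ne'
  exact mul_inv_cancel₀ this

theorem unU_win (U : Fin n → ℕ) (i : Fin n) : Win U (unU U) (U i) i := by
  classical
  intro x _
  refine ⟨0, U i, if ∀ j, j ≠ i → 1 ≤ x j then ((∏ i, U i : ℕ) : ℝ)⁻¹ else 0, le_rfl, by simp,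
    ?_, ?_⟩
  · split_ifs
    · positivity
    · exact le_rfl
  · intro a ha
    unfold unU
    by_cases h1 : 1 ≤ a
    · rw [if_pos (show a ∈ Finset.Ioc 0 (0 + U i) from Finset.mem_Ioc.2 ⟨h1, by omega⟩)]
      congr 1
      rw [eq_iff_iff]
      constructor
      · intro h j hj
        have := h j
        rwa [Function.update_of_ne hj] at this
      · intro h j
        by_cases hj : j = i
        · subst hj
          rwa [Function.update_self]
        · rw [Function.update_of_ne hj]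
          exact h j hj
    · rw [if_neg (show ¬ a ∈ Finset.Ioc 0 (0 + U i) from fun h => h1 (Finset.mem_Ioc.1 h).1)]
      refine if_neg fun h => h1 ?_
      have := h i
      rwa [Function.update_self] at this

theorem unU_thin {U : Fin n → ℕ} {M Λ : ℕ} (hΛ : 1 ≤ Λ) (i : Fin n)
    (h : 64 * Λ ^ 2 * (M + 1) ≤ U i) : Thin U (unU U) M (1 / (2 * Λ)) i := by
  have hΛ2 : 1 ≤ Λ ^ 2 := Nat.one_le_pow _ _ hΛ
  have hMN : M + 1 ≤ U i := by
    refine le_trans ?_ h
    exact Nat.le_mul_of_pos_left _ (by positivity)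
  have h1 := thin_win (unU_win U i) hMN
  have hΛr : (0 : ℝ) < Λ := by exact_mod_cast hΛ
  have hNr : (0 : ℝ) < U i := by exact_mod_cast (by omega : 0 < U i)
  have h2 : 4 * √((M + 1 : ℝ) / U i) ≤ 1 / (2 * Λ) := by
    have h3 : (M + 1 : ℝ) / U i ≤ (1 / (8 * Λ)) ^ 2 := by
      rw [div_le_iff₀ hNr]
      have h4 : (64 * (Λ : ℝ) ^ 2) * (M + 1) ≤ U i := by exact_mod_cast h
      have e : (1 / (8 * (Λ : ℝ))) ^ 2 * U i = U i / (64 * (Λ : ℝ) ^ 2) := by
        field_simp
        ring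
      rw [e, le_div_iff₀ (by positivity)]
      linarith
    have h4 : √((M + 1 : ℝ) / U i) ≤ 1 / (8 * Λ) := by
      rw [← Real.sqrt_sq (show (0 : ℝ) ≤ 1 / (8 * Λ) by positivity)]
      exact Real.sqrt_le_sqrt h3
    have e2 : (1 : ℝ) / (2 * Λ) = 4 * (1 / (8 * Λ)) := by
      field_simp
      norm_num
    rw [e2]
    linarith
  intro x hx C h0 hC
  refine (h1 x hx C h0 hC).trans (mul_le_mul_of_nonneg_right h2 ?_)
  exact Finset.sum_nonneg fun a _ => unU_nonneg U _

open Classical in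
theorem tailB {U : Fin n → ℕ} (hU : ∀ i, 1 ≤ U i) {Λ : ℕ} (hΛ : 1 ≤ Λ) (ρ m : ℕ)
    (hn : m + ρ * (Nat.size n + 1) ≤ (Finset.univ.filter fun i =>
      64 * Λ ^ 2 * (m + ρ * (Nat.size n + 1) + 1) ≤ U i).card) :
    ∑ _x ∈ (below U).filter (fun x => PF U ρ (m + ρ * (Nat.size n + 1)) x),
      ((∏ i, U i : ℕ) : ℝ)⁻¹ ≤ (1 / (2 * Λ)) ^ m := by
  have hΛr : (1 : ℝ) ≤ Λ := by exact_mod_cast hΛ
  have e0 : m + ρ * (1 * Nat.size n + 1) = m + ρ * (Nat.size n + 1) := by rw [one_mul]
  have h1 := cntP U (unU U) (fun x _ => unU_nonneg U x) (unU_sum hU)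
    (θ := 1 / (2 * Λ)) (by positivity) (g := 1) (by
      rw [pow_one]
      exact one_div_le_one_div_of_le (by norm_num) (by linarith))
    (Finset.univ.filter fun i => 64 * Λ ^ 2 * (m + ρ * (Nat.size n + 1) + 1) ≤ U i) ρ m
    (by rw [e0]; exact hn)
    (fun i hi => unU_thin hΛ i (by rw [e0]; exact (Finset.mem_filter.1 hi).2))
  rw [e0] at h1
  refine le_trans ?_ h1
  rw [← Finset.sum_congr rfl fun x hx => unU_below (Finset.mem_filter.1 hx).1]
  exact Finset.sum_le_sum_of_subset_of_nonneg (Finset.filter_subset_filter _ (below_sub U))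
    fun x _ _ => unU_nonneg U x

end Pool.Agent.H84.AC
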