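import Pool.Agent.H92.SR.Tim

/-!
# Separation with primes and a few large entries as generators

The proofs are those of helper92 (`Pool.Agent.H92.SR.Sep`, `Lsp`, `Tim`): the square roots of the classes of the large entries
are adjoined themselves, those of the other classes are products of the square roots of primes.
-/

set_option autoImplicit false

namespace Pool.Agent.H84.AC

open Pool.Agent.H92.SR Pool.Agent.H92.SR.Tr

private def isg (b : Bool) : ℤ := if b then 1 else -1

private theorem sgn_isg (b : Bool) (x : ℝ) : sgn b x = (isg b : ℝ) * x := by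
  cases b <;> simp [sgn, isg]

private theorem isg_abs (b : Bool) : |isg b| = 1 := by cases b <;> simp [isg]

private theorem isg_ne (b : Bool) : isg b ≠ 0 := by cases b <;> simp [isg]

/-- the common part -/
private theorem sep_core {D : Finset ℕ} (hD : ∀ d ∈ D, Squarefree d) {C : ℕ → ℤ}
    (hC : ∃ d ∈ D, C d ≠ 0)
    {S : ℝ} (hS1 : 1 ≤ S) (hS : ∑ d ∈ D, |(C d : ℝ)| * √(d : ℝ) ≤ S)
    {as : List ℕ} {g : List Bool → ℝ} (hg : Adm as g) (σ : List Bool → ℕ → ℤ)
    (hσ : ∀ ε d, |σ ε d| = 1)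
    (hgσ : ∀ ε : List Bool, ε.length = as.length →
      g ε = ∑ d ∈ D, (C d : ℝ) * ((σ ε d : ℝ) * √(d : ℝ)))
    (h1 : ∀ d ∈ D, σ (List.replicate as.length true) d = 1) :
    1 ≤ |∑ d ∈ D, (C d : ℝ) * √(d : ℝ)| * S ^ (2 ^ as.length - 1) := by
  have h2 := adm_sep hg hS1 (by
    intro ε hε h0
    rw [hgσ ε hε] at h0
    have h3 : ∑ d ∈ D, ((C d * σ ε d : ℤ) : ℝ) * √(d : ℝ) = 0 := by
      rw [← h0]
      refine Finset.sum_congr rfl fun d _ => ?_
      push_cast
      ring
    obtain ⟨d, hd, hCd⟩ := hC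
    have h4 := ind hD (fun d => C d * σ ε d) h3 d hd
    rcases mul_eq_zero.1 h4 with h5 | h5
    · exact hCd h5
    · have := hσ ε d
      rw [h5] at this
      simp at this) (by
    intro ε hε
    rw [hgσ ε hε]
    refine (Finset.abs_sum_le_sum_abs _ _).trans (le_trans (le_of_eq ?_) hS)
    refine Finset.sum_congr rfl fun d _ => ?_
    have h3 : |(σ ε d : ℝ)| = 1 := by
      have := hσ ε d
      exact_mod_cast this
    rw [abs_mul, abs_mul, h3, one_mul, abs_of_nonneg (Real.sqrt_nonneg _)])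
  have h3 : g (List.replicate as.length true) = ∑ d ∈ D, (C d : ℝ) * √(d : ℝ) := by
    rw [hgσ _ (by simp)]
    refine Finset.sum_congr rfl fun d hd => ?_
    rw [h1 d hd]
    push_cast
    ring
  rw [h3] at h2
  exact h2

theorem sep3 {D P E : Finset ℕ} (hD : ∀ d ∈ D, Squarefree d)
    (hP : ∀ d ∈ D, d ∉ E → ∀ p : ℕ, p.Prime → p ∣ d → p ∈ P) {C : ℕ → ℤ} (hC : ∃ d ∈ D, C d ≠ 0)
    {S : ℝ} (hS1 : 1 ≤ S) (hS : ∑ d ∈ D, |(C d : ℝ)| * √(d : ℝ) ≤ S) :
    1 ≤ |∑ d ∈ D, (C d : ℝ) * √(d : ℝ)| * S ^ (2 ^ (P ∪ E).card - 1) := by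
  classical
  set as : List ℕ := (P ∪ E).toList with has
  have hlen : as.length = (P ∪ E).card := Finset.length_toList _
  have hidx : ∀ d ∈ P ∪ E, as.idxOf d < as.length := by
    intro d hd
    exact List.idxOf_lt_length_of_mem (Finset.mem_toList.2 hd)
  have hget : ∀ d ∈ P ∪ E, as.getD (as.idxOf d) 0 = d := by
    intro d hd
    rw [List.getD_eq_getElem _ _ (hidx d hd)]
    exact List.getElem_idxOf (hidx d hd)
  have hPm : ∀ d ∈ D, d ∉ E → ∀ p ∈ d.primeFactors, p ∈ P ∪ E := by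
    intro d hd hdE p hp
    exact Finset.mem_union_left _ (hP d hd hdE p (Nat.prime_of_mem_primeFactors hp)
      (Nat.dvd_of_mem_primeFactors hp))
  -- the generators of the class `d`
  set gn : ℕ → Finset ℕ := fun d => if d ∈ E then {d} else d.primeFactors with hgn
  have hgm : ∀ d ∈ D, ∀ p ∈ gn d, p ∈ P ∪ E := by
    intro d hd p hp
    rw [hgn] at hp
    dsimp only at hp
    split_ifs at hp with hdE
    · rw [Finset.mem_singleton] at hp
      rw [hp]
      exact Finset.mem_union_right _ hdE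
    · exact hPm d hd hdE p hp
  have hg : Adm as fun ε => ∑ d ∈ D, ((C d : ℝ) * ∏ p ∈ gn d,
      sgn (ε.getD (as.idxOf p) true) √((as.getD (as.idxOf p) 0 : ℕ) : ℝ)) := by
    refine adm_sum D fun d hd => ?_
    refine adm_mul (adm_const as (C d)) ?_
    refine adm_prod _ fun p hp => ?_
    exact adm_crd as _ (hidx p (hgm d hd p hp))
  have hsq : ∀ d ∈ D, ∏ p ∈ gn d, √(p : ℝ) = √(d : ℝ) := by
    intro d hd
    rw [hgn]
    dsimp only
    split_ifs with hdE
    · rw [Finset.prod_singleton]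
    have h1 := Nat.prod_primeFactors_of_squarefree (hD d hd)
    have h2 : ((∏ p ∈ d.primeFactors, p : ℕ) : ℝ) = (d : ℝ) := congrArg Nat.cast h1
    rw [Nat.cast_prod] at h2
    have h3 : ∀ s : Finset ℕ, √(∏ p ∈ s, (p : ℝ)) = ∏ p ∈ s, √(p : ℝ) := by
      intro s
      induction s using Finset.induction_on with
      | empty => simp
      | insert a s ha ih =>
        rw [Finset.prod_insert ha, Finset.prod_insert ha, Real.sqrt_mul (Nat.cast_nonneg a), ih]
    rw [← h3, h2]
  have := sep_core hD hC hS1 hS hg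
    (fun ε d => ∏ p ∈ gn d, isg (ε.getD (as.idxOf p) true))
    (fun ε d => by
      rw [Finset.abs_prod]
      exact Finset.prod_eq_one fun p _ => isg_abs _) (by
      intro ε _
      refine Finset.sum_congr rfl fun d hd => ?_
      congr 1
      rw [← hsq d hd]
      push_cast
      rw [← Finset.prod_mul_distrib]
      refine Finset.prod_congr rfl fun p hp => ?_
      rw [hget p (hgm d hd p hp), sgn_isg]) (by
      intro d hd
      refine Finset.prod_eq_one fun p hp => ?_
      have h1 : (List.replicate as.length true).getD (as.idxOf p) true = true := by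
        rw [List.getD_eq_getElem _ _ (by simpa using hidx p (hgm d hd p hp)),
          List.getElem_replicate]
      rw [h1]
      rfl)
  rw [hlen] at this
  exact this


/-- the coefficient of a class -/
private noncomputable def cl (L : List ℕ) (d : ℕ) : ℕ :=
  (L.map fun a => if sf a = d then rt a else 0).sum

private theorem cl_sum (L : List ℕ) {D : Finset ℕ} (hD : ∀ a ∈ L, sf a ∈ D) :
    (L.map fun a : ℕ => √(a : ℝ)).sum = ∑ d ∈ D, (cl L d : ℝ) * √(d : ℝ) := by
  induction L with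
  | nil => simp [cl]
  | cons a L ih =>
    have h1 := ih fun x hx => hD x (List.mem_cons_of_mem _ hx)
    simp only [List.map_cons, List.sum_cons]
    rw [h1]
    have h2 : ∀ d, (cl (a :: L) d : ℝ) * √(d : ℝ) =
        (if sf a = d then (rt a : ℝ) * √(sf a : ℝ) else 0) + (cl L d : ℝ) * √(d : ℝ) := by
      intro d
      unfold cl
      simp only [List.map_cons, List.sum_cons]
      by_cases h : sf a = d
      · rw [if_pos h, if_pos h]
        push_cast
        rw [h]
        ring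
      · rw [if_neg h, if_neg h]
        push_cast
        ring
    simp only [h2]
    rw [Finset.sum_add_distrib, Finset.sum_ite_eq, if_pos (hD a List.mem_cons_self), ← sqrt_cls]

private theorem cl_zero {L : List ℕ} {d : ℕ} (h : cl L d = 0) {a : ℕ} (ha : a ∈ L)
    (hs : sf a = d) : a = 0 := by
  unfold cl at h
  rw [List.sum_eq_zero_iff] at h
  have h1 := h (rt a) (by
    rw [List.mem_map]
    exact ⟨a, ha, by rw [if_pos hs]⟩)
  have h2 := (sf_spec a).1
  rw [h1] at h2
  simpa using h2.symm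

/-- the coefficients of the instance -/
private noncomputable def ck (L : List ℕ) (k d : ℕ) : ℤ := (cl L d : ℤ) - (if d = 1 then k else 0)

private theorem ck_sum (L : List ℕ) (k : ℕ) {D : Finset ℕ} (hD : ∀ a ∈ L, sf a ∈ D)
    (h1 : 1 ∈ D) : EE L k = ∑ d ∈ D, (ck L k d : ℝ) * √(d : ℝ) := by
  unfold EE
  rw [cl_sum L hD]
  have h2 : ∀ d, (ck L k d : ℝ) * √(d : ℝ) =
      (cl L d : ℝ) * √(d : ℝ) - (if d = 1 then (k : ℝ) else 0) := by
    intro d
    unfold ck
    by_cases h : d = 1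
    · rw [if_pos h, if_pos h]
      push_cast
      rw [h]
      simp
    · rw [if_neg h, if_neg h]
      push_cast
      ring
  simp only [h2]
  rw [Finset.sum_sub_distrib, Finset.sum_ite_eq', if_pos h1]

private theorem ck_ne {L : List ℕ} (k : ℕ) {D : Finset ℕ} (hD : ∀ a ∈ L, sf a ∈ D)
    (hsq : ¬ ∀ a ∈ L, IsSquare a) : ∃ d ∈ D, ck L k d ≠ 0 := by
  by_contra hno
  push Not at hno
  apply hsq
  intro a ha
  have h1 := hno (sf a) (hD a ha)
  by_cases h : sf a = 1
  · have h2 := (sf_spec a).1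
    rw [h, mul_one] at h2
    exact ⟨rt a, by rw [← pow_two, h2]⟩
  · unfold ck at h1
    rw [if_neg h] at h1
    have h2 : cl L (sf a) = 0 := by omega
    have h3 := cl_zero h2 ha rfl
    rw [h3]
    exact ⟨0, rfl⟩

private theorem ck_abs (L : List ℕ) (k : ℕ) {D : Finset ℕ} (hD : ∀ a ∈ L, sf a ∈ D)
    (h1 : 1 ∈ D) : ∑ d ∈ D, |(ck L k d : ℝ)| * √(d : ℝ) ≤
      (L.map fun a : ℕ => √(a : ℝ)).sum + k := by
  have h2 : ∀ d, |(ck L k d : ℝ)| * √(d : ℝ) ≤
      (cl L d : ℝ) * √(d : ℝ) + (if d = 1 then (k : ℝ) else 0) := by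
    intro d
    unfold ck
    have e1 : (0 : ℝ) ≤ cl L d := Nat.cast_nonneg _
    have e2 : (0 : ℝ) ≤ k := Nat.cast_nonneg _
    by_cases h : d = 1
    · rw [if_pos h, if_pos h]
      push_cast
      rw [h]
      simp only [Nat.cast_one, Real.sqrt_one, mul_one]
      rw [h] at e1
      rw [abs_le]
      constructor <;> linarith
    · rw [if_neg h, if_neg h]
      push_cast
      rw [sub_zero, add_zero, abs_of_nonneg e1]
  refine (Finset.sum_le_sum fun d _ => h2 d).trans (le_of_eq ?_)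
  rw [Finset.sum_add_distrib, Finset.sum_ite_eq', if_pos h1, cl_sum L hD]

theorem lsp3 {L : List ℕ} {k N : ℕ} (hN : ∀ a ∈ L, 1 ≤ a)
    (hsq : ¬ ∀ a ∈ L, IsSquare a) {S : ℝ} (hS1 : 1 ≤ S)
    (hS : (L.map fun a : ℕ => √(a : ℝ)).sum + k ≤ S) :
    1 ≤ |EE L k| * S ^ (2 ^ (N.primeCounting + (L.filter fun a => N < a).length) - 1) := by
  classical
  set D : Finset ℕ := insert 1 (L.map sf).toFinset with hD
  have hDm : ∀ a ∈ L, sf a ∈ D := by
    intro a ha
    rw [hD, Finset.mem_insert]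
    right
    rw [List.mem_toFinset, List.mem_map]
    exact ⟨a, ha, rfl⟩
  have h1 : 1 ∈ D := Finset.mem_insert_self _ _
  have hDs : ∀ d ∈ D, Squarefree d := by
    intro d hd
    rw [hD, Finset.mem_insert, List.mem_toFinset, List.mem_map] at hd
    rcases hd with rfl | ⟨a, _, rfl⟩
    · exact squarefree_one
    · exact (sf_spec a).2
  set P : Finset ℕ := (Finset.range (N + 1)).filter Nat.Prime with hP
  set E : Finset ℕ := ((L.filter fun a => N < a).map sf).toFinset with hE
  have hcard : P.card = N.primeCounting := by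
    rw [hP, ← Nat.count_eq_card_filter_range]
    rfl
  have hEcard : E.card ≤ (L.filter fun a => N < a).length := by
    rw [hE]
    refine (List.toFinset_card_le _).trans ?_
    rw [List.length_map]
  have hPm : ∀ d ∈ D, d ∉ E → ∀ p : ℕ, p.Prime → p ∣ d → p ∈ P := by
    intro d hd hdE p hp hpd
    rw [hD, Finset.mem_insert, List.mem_toFinset, List.mem_map] at hd
    rcases hd with rfl | ⟨a, ha, rfl⟩
    · exact absurd (Nat.dvd_one.1 hpd) hp.one_lt.ne'
    · rw [hP, Finset.mem_filter, Finset.mem_range]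
      refine ⟨?_, hp⟩
      have h3 : p ∣ a := by
        rw [← (sf_spec a).1]
        exact dvd_mul_of_dvd_right hpd _
      have h4 := Nat.le_of_dvd (hN a ha) h3
      have h5 : a ≤ N := by
        by_contra h6
        apply hdE
        rw [hE, List.mem_toFinset, List.mem_map]
        exact ⟨a, List.mem_filter.2 ⟨ha, decide_eq_true (not_le.1 h6)⟩, rfl⟩
      omega
  have h2 := sep3 hDs hPm (ck_ne k hDm hsq) hS1 ((ck_abs L k hDm h1).trans hS)
  rw [← ck_sum L k hDm h1] at h2
  refine h2.trans (mul_le_mul_of_nonneg_left ?_ (abs_nonneg _))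
  refine pow_le_pow_right₀ hS1 ?_
  refine Nat.sub_le_sub_right (Nat.pow_le_pow_right (by norm_num) ?_) 1
  refine (Finset.card_union_le _ _).trans ?_
  rw [hcard]
  exact Nat.add_le_add_left hEcard _

open Classical in
theorem tim3 : ∃ (c : Prog) (T : List ℕ → ℕ → ℕ) (q : Polynomial ℕ) (Λ : ℕ), 1 ≤ Λ ∧
    (∀ L k, Eval c (encI L k) (bit (decide (EE L k ≤ 0))) (T L k)) ∧
    (∀ L k b m, 1 ≤ |EE L k| * 2 ^ (1 + b * 4 ^ m) → T L k ≤ q.eval (bsz L k + b) * Λ ^ m) ∧
    ∀ (L : List ℕ) (k b N : ℕ), (∀ a ∈ L, 1 ≤ a) → (L.map fun a : ℕ => √(a : ℝ)).sum + (k : ℝ) ≤ 2 ^ b →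
      T L k ≤ q.eval (bsz L k + b) * Λ ^ (N.primeCounting + (L.filter fun a => N < a).length) := by
  obtain ⟨c, T, q, hE, hT1, hT2⟩ := tim0
  have hΛ : 1 ≤ 4 ^ q.natDegree := Nat.one_le_pow _ _ (by norm_num)
  have hev : ∀ x : ℕ, (q.comp (Polynomial.X + 1)).eval x = q.eval (x + 1) := by
    intro x
    simp [Polynomial.eval_comp]
  have hkey : ∀ (L : List ℕ) (k b m x : ℕ), 1 ≤ |EE L k| * 2 ^ x → x ≤ 1 + b * 4 ^ m →
      T L k ≤ (q.comp (Polynomial.X + 1)).eval (bsz L k + b) * (4 ^ q.natDegree) ^ m := by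
    intro L k b m x hx hxb
    have h1 := hT1 L k x hx
    have h4 : 1 ≤ 4 ^ m := Nat.one_le_pow _ _ (by norm_num)
    have h2 : bsz L k + x ≤ (bsz L k + b + 1) * 4 ^ m := by
      have h5 : bsz L k * 1 ≤ bsz L k * 4 ^ m := Nat.mul_le_mul_left _ h4
      have h6 : (bsz L k + b + 1) * 4 ^ m = bsz L k * 4 ^ m + b * 4 ^ m + 4 ^ m := by ring
      omega
    rw [hev]
    refine (h1.trans (poly_mono q h2)).trans ?_
    refine (poly_scale q _ h4).trans (le_of_eq ?_)
    rw [← pow_mul, ← pow_mul, mul_comm m]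
  have hsq : ∀ (L : List ℕ) (k b r : ℕ), (∀ a ∈ L, IsSquare a) →
      T L k ≤ (q.comp (Polynomial.X + 1)).eval (bsz L k + b) * (4 ^ q.natDegree) ^ r := by
    intro L k b r h
    rw [hev]
    refine (hT2 L k h).trans ((poly_mono q (by omega)).trans (Nat.le_mul_of_pos_right _ ?_))
    exact pow_pos hΛ r
  have hcase : ∀ (L : List ℕ) (k b r : ℕ), 1 ≤ |EE L k| * (2 ^ b) ^ (2 ^ r - 1) →
      T L k ≤ (q.comp (Polynomial.X + 1)).eval (bsz L k + b) * (4 ^ q.natDegree) ^ r := by
    intro L k b r h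
    rw [← pow_mul] at h
    refine hkey L k b r _ h ?_
    have h1 : 2 ^ r - 1 ≤ 4 ^ r := by
      exact (Nat.sub_le _ _).trans (Nat.pow_le_pow_left (by norm_num) r)
    have := Nat.mul_le_mul_left b h1
    omega
  refine ⟨c, T, q.comp (Polynomial.X + 1), 4 ^ q.natDegree, hΛ, hE, ?_, ?_⟩
  · intro L k b m h
    exact hkey L k b m _ h le_rfl
  · intro L k b N hN h
    by_cases h1 : ∀ a ∈ L, IsSquare a
    · exact hsq L k b _ h1
    · exact hcase L k b _ (lsp3 hN h1 (one_le_pow₀ (by norm_num)) h)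


end Pool.Agent.H84.AC
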