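import Pool.Agent.H84.AC.Box
import Pool.Agent.H84.AC.Sep3

/-!
# The square-root sum problem on average over the lists below a list
-/

set_option autoImplicit false

namespace Pool.Agent.H84.AC

open Pool.Agent.H92.SR Pool.Agent.H92.SR.Tr Pool.Agent.H8.SS Pool.Agent.H41.RC

theorem below_box {n : ℕ} (U : Fin n → ℕ) : below U = box (fun _ : Fin n => 0) U := by
  unfold box below
  congr 1
  funext i
  ext x
  simp only [Finset.mem_Icc, Finset.mem_Ioc]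
  omega

theorem pcount_le (N : ℕ) : N.primeCounting ≤ N := by
  rw [Nat.primeCounting, Nat.primeCounting', Nat.count_eq_card_filter_range]
  refine (Finset.card_le_card (t := Finset.Icc 1 N) ?_).trans (by rw [Nat.card_Icc]; omega)
  intro p hp
  rw [Finset.mem_filter, Finset.mem_range] at hp
  rw [Finset.mem_Icc]
  exact ⟨hp.2.one_lt.le, by omega⟩

theorem filter_ofFn {n : ℕ} (f : Fin n → ℕ) (P : ℕ) :
    ((List.ofFn f).filter fun a => P < a).length ≤ (Finset.univ.filter fun i => P < f i).card := by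
  classical
  rw [List.ofFn_eq_map, List.filter_map, List.length_map]
  have hnd : ((List.finRange n).filter ((fun a => decide (P < a)) ∘ f)).Nodup :=
    (List.nodup_finRange n).filter _
  rw [← List.toFinset_card_of_nodup hnd]
  refine Finset.card_le_card fun i hi => ?_
  rw [List.mem_toFinset, List.mem_filter] at hi
  exact Finset.mem_filter.2 ⟨Finset.mem_univ _, of_decide_eq_true hi.2⟩

open Classical in
theorem mainU : ∃ (c : Prog) (T : List ℕ → ℕ → ℕ) (q : Polynomial ℕ) (Λ : ℕ), 1 ≤ Λ ∧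
    (∀ (L : List ℕ) (k : ℕ), Eval c (encI L k) (bit (decide (EE L k ≤ 0))) (T L k)) ∧
    ∀ (n : ℕ) (U : Fin n → ℕ) (ρ B : ℕ) (y : (Fin n → ℕ) → Fin n → ℕ) (κ : (Fin n → ℕ) → ℕ),
      (∀ i, 1 ≤ U i) →
      (∀ x ∈ below U, y x ∈ below U ∧ (Finset.univ.filter fun i => y x i ≠ x i).card ≤ ρ ∧
        Nat.size (κ x) ≤ B) →
      ∑ x ∈ below U, T (List.ofFn (y x)) (κ x) ≤
        (∏ i, U i) * (q.eval (n + ∑ i, Nat.size (U i) + B) * Λ ^ (ρ * (Nat.size n + 1))) := by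
  obtain ⟨c, T, q, Λ, hΛ, hE, hT1, hT3⟩ := tim3
  have hΛ0 : 0 < Λ := hΛ
  have hΛr : (1 : ℝ) ≤ Λ := by exact_mod_cast hΛ
  have hL2 : 0 < Λ ^ 2 := pow_pos hΛ0 2
  obtain ⟨N0, hN0⟩ := prm (K := 64 * Λ ^ 2 * Λ) (Nat.mul_pos (Nat.mul_pos (by norm_num) hL2) hΛ0)
  have hpi : ∀ t : ℕ, (64 * Λ ^ 2 * t).primeCounting ≤ N0 + t / Λ := by
    intro t
    rcases Nat.lt_or_ge (64 * Λ ^ 2 * t) N0 with h | h
    · exact (pcount_le _).trans (h.le.trans (Nat.le_add_right _ _))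
    · refine (hN0 _ h).trans ?_
      rw [Nat.mul_div_mul_left _ _ (Nat.mul_pos (by norm_num) hL2)]
      exact Nat.le_add_left _ _
  have hpow : ∀ t : ℕ, Λ ^ (64 * Λ ^ 2 * t).primeCounting ≤ Λ ^ N0 * 2 ^ t := by
    intro t
    calc Λ ^ (64 * Λ ^ 2 * t).primeCounting ≤ Λ ^ (N0 + t / Λ) :=
          Nat.pow_le_pow_right hΛ0 (hpi t)
      _ = Λ ^ N0 * Λ ^ (t / Λ) := pow_add _ _ _
      _ ≤ Λ ^ N0 * 2 ^ t := by
          refine Nat.mul_le_mul_left _ ?_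
          calc Λ ^ (t / Λ) ≤ (2 ^ Λ) ^ (t / Λ) := Nat.pow_le_pow_left Nat.lt_two_pow_self.le _
            _ = 2 ^ (Λ * (t / Λ)) := (pow_mul _ _ _).symm
            _ ≤ 2 ^ t := Nat.pow_le_pow_right (by norm_num) (Nat.mul_div_le _ _)
  have hev : ∀ x : ℕ, ((q.comp (3 * Polynomial.X + 5)) *
      Polynomial.C (1 + 3 * Λ + 4 * Λ ^ (N0 + 1))).eval x =
      q.eval (3 * x + 5) * (1 + 3 * Λ + 4 * Λ ^ (N0 + 1)) := by
    intro x
    simp [Polynomial.eval_comp]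
  refine ⟨c, T, (q.comp (3 * Polynomial.X + 5)) * Polynomial.C (1 + 3 * Λ + 4 * Λ ^ (N0 + 1)),
    2 * Λ, by omega, hE, ?_⟩
  intro n U ρ B y κ hU hy
  rw [hev]
  obtain ⟨s, hs⟩ : ∃ s, s = ∑ i, Nat.size (U i) := ⟨_, rfl⟩
  obtain ⟨Q, hQ⟩ : ∃ Q, Q = q.eval (3 * (n + s + B) + 5) := ⟨_, rfl⟩
  obtain ⟨v, hv⟩ : ∃ v, v = ρ * (Nat.size n + 1) := ⟨_, rfl⟩
  obtain ⟨X, hX⟩ : ∃ X, X = ∏ i, U i := ⟨_, rfl⟩
  have hX0 : 0 < X := by
    rw [hX]
    exact Finset.prod_pos fun i _ => hU i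
  rw [← hs, ← hQ, ← hv, ← hX]
  have hQ1 : ∀ x ∈ below U, ∀ m, ¬ bad (2 * (∑ i, Nat.size (U i) + 2)) m (y x) →
      T (List.ofFn (y x)) (κ x) ≤ Q * Λ ^ m := by
    intro x hx m hm
    obtain ⟨h1, -, h3⟩ := hy x hx
    unfold bad badp at hm
    push Not at hm
    refine (hT1 _ _ _ _ (hm (κ x))).trans (Nat.mul_le_mul_right _ ?_)
    rw [hQ]
    refine poly_mono q ?_
    have h4 := bsz_ofFn (N := U) (fun i => (mem_below.1 h1 i).2) (κ x)
    rw [← hs] at h4 ⊢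
    omega
  obtain ⟨a, ha⟩ : ∃ a : ℕ → ℕ, ∀ m, a m = (Finset.univ.filter fun i =>
    64 * Λ ^ 2 * (m + v + 1) ≤ U i).card := ⟨_, fun _ => rfl⟩
  have han : ∀ m, a m ≤ n := fun m => by
    rw [ha]
    exact (Finset.card_le_univ _).trans (le_of_eq (Fintype.card_fin n))
  have hex : ∃ m, ¬ m + v ≤ a m := ⟨n + 1, by have := han (n + 1); omega⟩
  obtain ⟨m0, hm0, hmin⟩ : ∃ m0, ¬ m0 + v ≤ a m0 ∧ ∀ m < m0, m + v ≤ a m := by
    refine ⟨Nat.find hex, Nat.find_spec hex, fun m hm => ?_⟩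
    have := Nat.find_min hex hm
    exact not_not.1 this
  obtain ⟨P, hP⟩ : ∃ P, P = 64 * Λ ^ 2 * (m0 + v + 1) := ⟨_, rfl⟩
  have hQ3 : ∀ x ∈ below U, T (List.ofFn (y x)) (κ x) ≤ Q * Λ ^ (P.primeCounting + (m0 + v)) := by
    intro x hx
    obtain ⟨h1, -, h3⟩ := hy x hx
    have h1b := h1
    rw [below_box] at h1b
    have h := hT3 (List.ofFn (y x)) (κ x) _ P (by
      intro b hb
      rw [List.mem_ofFn] at hb
      obtain ⟨i, rfl⟩ := hb
      exact (mem_below.1 h1 i).1) (sum_box' h1b (κ x))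
    refine h.trans (Nat.mul_le_mul ?_ (Nat.pow_le_pow_right hΛ0 (Nat.add_le_add_left ?_ _)))
    · rw [hQ]
      refine poly_mono q ?_
      have h4 := bsz_ofFn (N := U) (fun i => (mem_below.1 h1 i).2) (κ x)
      have h5 : bbx (fun _ : Fin n => 0) U (κ x) = n + s + Nat.size (κ x) := by
        unfold bbx
        rw [hs]
        simp
      rw [h5]
      rw [← hs] at h4
      omega
    · refine (filter_ofFn _ _).trans ?_
      have h6 : (Finset.univ.filter fun i => P < y x i).card ≤ a m0 := by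
        rw [ha]
        refine Finset.card_le_card fun i hi => ?_
        rw [Finset.mem_filter] at hi ⊢
        refine ⟨hi.1, ?_⟩
        rw [← hP]
        exact hi.2.le.trans (mem_below.1 h1 i).2
      omega
  have hPp : Λ ^ P.primeCounting ≤ Λ ^ N0 * 2 ^ (m0 + v + 1) := by
    rw [hP]
    exact hpow _
  rcases Nat.eq_zero_or_pos m0 with hz | hpos
  · subst hz
    have h1 := Finset.sum_le_sum hQ3
    rw [Finset.sum_const, card_below, ← hX, smul_eq_mul] at h1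
    refine h1.trans (Nat.mul_le_mul_left _ ?_)
    rw [mul_assoc]
    refine Nat.mul_le_mul_left _ ?_
    rw [Nat.zero_add] at hPp ⊢
    rw [Nat.zero_add] at *
    calc Λ ^ (P.primeCounting + v) = Λ ^ P.primeCounting * Λ ^ v := pow_add _ _ _
      _ ≤ Λ ^ N0 * 2 ^ (v + 1) * Λ ^ v := Nat.mul_le_mul_right _ hPp
      _ = 2 * Λ ^ N0 * (2 * Λ) ^ v := by
          rw [mul_pow, pow_succ]
          ring
      _ ≤ (1 + 3 * Λ + 4 * Λ ^ (N0 + 1)) * (2 * Λ) ^ v := by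
          refine Nat.mul_le_mul_right _ ?_
          have h2 : Λ ^ N0 ≤ Λ ^ (N0 + 1) := Nat.pow_le_pow_right hΛ0 (Nat.le_succ _)
          omega
  · obtain ⟨M, rfl⟩ : ∃ M, m0 = M + 1 := ⟨m0 - 1, by omega⟩
    have hXr : (0 : ℝ) < (X : ℝ) := by exact_mod_cast hX0
    obtain ⟨R, hR⟩ : ∃ R, R = P.primeCounting + (M + 1 + v) := ⟨_, rfl⟩
    rw [← hR] at hQ3
    have h3 := avgF (below U) (fun _ => ((X : ℕ) : ℝ)⁻¹)
      (fun x => (T (List.ofFn (y x)) (κ x) : ℝ))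
      (fun m x => PF U ρ (m + v) x)
      (Q := ((Q * Λ ^ v : ℕ) : ℝ)) (Q' := ((Q * Λ ^ R : ℕ) : ℝ))
      (L := (Λ : ℝ)) (M := M) (p := fun m => (1 / (2 * (Λ : ℝ))) ^ m) (Nat.cast_nonneg _)
      (Nat.cast_nonneg _) hΛr (fun _ _ => by positivity) (by
        rw [Finset.sum_const, card_below, ← hX, nsmul_eq_mul]
        exact mul_inv_cancel₀ hXr.ne') ?_ (fun x hx => by exact_mod_cast hQ3 x hx) ?_
    · have hgeo := geo (L := (Λ : ℝ)) (θ := 1 / (2 * (Λ : ℝ))) hΛr (by positivity) (by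
        have : (Λ : ℝ) ≠ 0 := by positivity
        field_simp
        exact le_rfl) M
      have hp0 : (0 : ℝ) ≤ (Λ : ℝ) ^ M * (1 / (2 * (Λ : ℝ))) ^ M := by positivity
      have hΛM : (Λ : ℝ) ^ M * (1 / (2 * (Λ : ℝ))) ^ M = (1 / 2) ^ M := by
        rw [← mul_pow]
        have : (Λ : ℝ) ≠ 0 := by positivity
        have e : (Λ : ℝ) * (1 / (2 * Λ)) = 1 / 2 := by field_simp
        rw [e]
      have h5 : (Λ : ℝ) ^ R * (1 / (2 * (Λ : ℝ))) ^ M ≤ 4 * (Λ : ℝ) ^ (N0 + 1) * (2 * Λ) ^ v := by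
        have h6 : (Λ : ℝ) ^ P.primeCounting ≤ (Λ : ℝ) ^ N0 * 2 ^ (M + 1 + v + 1) := by
          exact_mod_cast hPp
        calc (Λ : ℝ) ^ R * (1 / (2 * (Λ : ℝ))) ^ M =
              (Λ : ℝ) ^ P.primeCounting * ((Λ : ℝ) ^ M * (1 / (2 * (Λ : ℝ))) ^ M) *
                (Λ ^ v * Λ) := by
              rw [hR, pow_add, pow_add, pow_succ]
              ring
          _ = (Λ : ℝ) ^ P.primeCounting * (1 / 2) ^ M * (Λ ^ v * Λ) := by rw [hΛM]
          _ ≤ (Λ : ℝ) ^ N0 * 2 ^ (M + 1 + v + 1) * (1 / 2) ^ M * (Λ ^ v * Λ) := by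
              refine mul_le_mul_of_nonneg_right (mul_le_mul_of_nonneg_right h6 (by positivity)) ?_
              positivity
          _ = 4 * (Λ : ℝ) ^ (N0 + 1) * (2 * Λ) ^ v := by
              have e1 : (2 : ℝ) ^ (M + 1 + v + 1) = 4 * 2 ^ v * 2 ^ M := by
                rw [show M + 1 + v + 1 = M + v + 2 by ring, pow_add, pow_add]
                ring
              have e2 : (2 : ℝ) ^ M * (1 / 2) ^ M = 1 := by
                rw [← mul_pow]
                norm_num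
              rw [e1, mul_pow 2 (Λ : ℝ) v, pow_succ]
              calc (Λ : ℝ) ^ N0 * (4 * 2 ^ v * 2 ^ M) * (1 / 2) ^ M * (Λ ^ v * Λ) =
                    (Λ : ℝ) ^ N0 * (4 * 2 ^ v) * (2 ^ M * (1 / 2) ^ M) * (Λ ^ v * Λ) := by ring
                _ = _ := by
                    rw [e2]
                    ring
      have hQr : (0 : ℝ) ≤ Q := Nat.cast_nonneg _
      have h8 : (Λ : ℝ) ^ v ≤ (2 * Λ) ^ v := pow_le_pow_left₀ (by positivity) (by linarith) v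
      have h9 : ∑ x ∈ below U, ((X : ℕ) : ℝ)⁻¹ * (T (List.ofFn (y x)) (κ x) : ℝ) ≤
          Q * (1 + 3 * Λ + 4 * (Λ : ℝ) ^ (N0 + 1)) * (2 * Λ) ^ v := by
        refine h3.trans ?_
        have h10 : 1 + ∑ m ∈ Finset.range M, (Λ : ℝ) ^ (m + 1) * (1 / (2 * (Λ : ℝ))) ^ m ≤
            1 + 3 * Λ := by linarith
        push_cast
        have h11 : (Q : ℝ) * (Λ : ℝ) ^ v *
            (1 + ∑ m ∈ Finset.range M, (Λ : ℝ) ^ (m + 1) * (1 / (2 * (Λ : ℝ))) ^ m) ≤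
            Q * (2 * (Λ : ℝ)) ^ v * (1 + 3 * Λ) := by
          refine mul_le_mul (mul_le_mul_of_nonneg_left h8 hQr) h10 ?_ (by positivity)
          have : (0 : ℝ) ≤ ∑ m ∈ Finset.range M, (Λ : ℝ) ^ (m + 1) * (1 / (2 * (Λ : ℝ))) ^ m :=
            Finset.sum_nonneg fun m _ => by positivity
          linarith
        have h12 : (Q : ℝ) * (Λ : ℝ) ^ R * (1 / (2 * (Λ : ℝ))) ^ M ≤
            Q * (4 * (Λ : ℝ) ^ (N0 + 1) * (2 * Λ) ^ v) := by
          rw [mul_assoc]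
          exact mul_le_mul_of_nonneg_left h5 hQr
        calc _ ≤ Q * (2 * (Λ : ℝ)) ^ v * (1 + 3 * Λ) +
              Q * (4 * (Λ : ℝ) ^ (N0 + 1) * (2 * Λ) ^ v) := add_le_add h11 h12
          _ = _ := by ring
      rw [← Finset.mul_sum, inv_mul_le_iff₀ hXr] at h9
      exact_mod_cast h9
    · intro x hx m _ hb
      have h4 := hQ1 x hx (m + v) fun hb2 => hb ⟨y x, fun i => (mem_below.1 (hy x hx).1 i).2,
        (hy x hx).2.1, hb2⟩
      have h5 : T (List.ofFn (y x)) (κ x) ≤ Q * Λ ^ v * Λ ^ m := by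
        refine h4.trans (le_of_eq ?_)
        rw [mul_assoc, ← pow_add, Nat.add_comm m v]
      exact_mod_cast h5
    · intro m hm
      have h4 := tailB hU hΛ ρ m (by
        rw [← hv, ← ha]
        exact hmin m (by omega))
      rw [← hv, ← hX] at h4
      exact h4

end Pool.Agent.H84.AC
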